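import Pool.Agent.Y312.OR.Uniform

/-!
# Strictly over-recurrent sets in mixing systems
-/

set_option autoImplicit false
set_option linter.unusedSectionVars false
open MeasureTheory Filter Topology Set
open scoped symmDiff

namespace Pool.Agent.Y312.OverRec

variable {X : Type*} [MeasurableSpace X] {μ : Measure X} [IsProbabilityMeasure μ] {T : X → X}

/-- removing an almost invariant set -/
lemma step (hT : MeasurePreserving T μ μ) (hM : Mix μ T)
    (hA : ∃ A : Set X, MeasurableSet A ∧ 0 < μ.real A ∧ μ.real A < 1)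
    {D : Set X} (hD : MeasurableSet D) (p e : ℝ) (hp0 : 0 ≤ p) (hp1 : p < 1) (he : 0 < e)
    (M : ℕ) :
    ∃ D' : Set X, D' ⊆ D ∧ MeasurableSet D' ∧
      (1 - p) * μ.real D - e ≤ μ.real D' ∧ μ.real D' ≤ (1 - p) * μ.real D + e ∧
      (∀ n, (1 - 2 * p) * μ.real (D ∩ T^[n] ⁻¹' D) - 2 * e ≤ μ.real (D' ∩ T^[n] ⁻¹' D')) ∧
      (∀ n, n ≤ M → (1 - p) * μ.real (D ∩ T^[n] ⁻¹' D) - 2 * e ≤
        μ.real (D' ∩ T^[n] ⁻¹' D')) := by
  obtain ⟨L, hL⟩ := uniform_indep hT hM hD (e / 4) (by positivity)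
  set ε := e / (4 * (L + M + 1)) with hε
  have hden : (0 : ℝ) < 4 * (L + M + 1) := by positivity
  have hε0 : 0 < ε := by positivity
  have hmul : (L + M + 1) * ε = e / 4 := by rw [hε]; field_simp
  obtain ⟨A, hAm, hA1, hA2, hA3⟩ := almost_inv hT hM hA p ε hp0 hp1 hε0
  have hLε : (L : ℝ) * ε ≤ e / 4 := by
    have : 0 ≤ (M + 1) * ε := by positivity
    linarith
  have hMε : (M : ℝ) * ε ≤ e / 4 := by
    have : 0 ≤ (L + 1) * ε := by positivity
    linarith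
  have hεe : ε ≤ e / 4 := by
    have : 0 ≤ (L + M) * ε := by positivity
    linarith
  -- near independence for all almost invariant sets of the same measure
  have hind : ∀ n, ∀ B : Set X, MeasurableSet B → μ.real B = μ.real A →
      μ.real (B ∆ (T^[1] ⁻¹' B)) = μ.real (A ∆ (T^[1] ⁻¹' A)) →
      |μ.real (B ∩ (D ∩ T^[n] ⁻¹' D)) - p * μ.real (D ∩ T^[n] ⁻¹' D)| ≤ 3 / 4 * e := by
    intro n B hB hBA hBi
    have h1 := hL n B hB
    rw [hBi, hBA] at h1
    have h2 : (L : ℝ) * μ.real (A ∆ (T^[1] ⁻¹' A)) ≤ e / 4 :=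
      (mul_le_mul_of_nonneg_left hA3 (Nat.cast_nonneg L)).trans hLε
    have hc0 : 0 ≤ μ.real (D ∩ T^[n] ⁻¹' D) := measureReal_nonneg
    have hc1 : μ.real (D ∩ T^[n] ⁻¹' D) ≤ 1 := measureReal_le_one
    have h3 : |(μ.real A - p) * μ.real (D ∩ T^[n] ⁻¹' D)| ≤ e / 4 := by
      rw [abs_of_nonneg (mul_nonneg (by linarith) hc0)]
      nlinarith
    have h4 : μ.real (B ∩ (D ∩ T^[n] ⁻¹' D)) - p * μ.real (D ∩ T^[n] ⁻¹' D) =
      (μ.real (B ∩ (D ∩ T^[n] ⁻¹' D)) - μ.real A * μ.real (D ∩ T^[n] ⁻¹' D)) +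
        (μ.real A - p) * μ.real (D ∩ T^[n] ⁻¹' D) := by ring
    rw [h4]
    refine (abs_add_le _ _).trans ?_
    linarith
  have hE : ∀ n, MeasurableSet (D ∩ T^[n] ⁻¹' D) := fun n => hD.inter (meas_pre hT n hD)
  refine ⟨D \ A, sdiff_subset, hD.diff hAm, ?_, ?_, ?_, ?_⟩
  · have h1 := hind 0 A hAm rfl rfl
    simp only [Function.iterate_zero, preimage_id, inter_self] at h1
    have h2 := measureReal_sdiff_add_inter (μ := μ) (s := D) hAm
    rw [inter_comm] at h2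
    rw [abs_le] at h1
    linarith [h1.1, h1.2]
  · have h1 := hind 0 A hAm rfl rfl
    simp only [Function.iterate_zero, preimage_id, inter_self] at h1
    have h2 := measureReal_sdiff_add_inter (μ := μ) (s := D) hAm
    rw [inter_comm] at h2
    rw [abs_le] at h1
    linarith [h1.1, h1.2]
  · intro n
    have h1 := hind n A hAm rfl rfl
    have h2 := hind n (T^[n] ⁻¹' A) (meas_pre hT n hAm) (pre_real hT n hAm)
      (symmDiff_pre hT hAm n)
    rw [abs_le] at h1 h2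
    have hsub : (D ∩ T^[n] ⁻¹' D) ⊆ ((D \ A) ∩ T^[n] ⁻¹' (D \ A)) ∪
        ((A ∩ (D ∩ T^[n] ⁻¹' D)) ∪ (T^[n] ⁻¹' A ∩ (D ∩ T^[n] ⁻¹' D))) := by
      intro x hx
      by_cases hxA : x ∈ A
      · exact Or.inr (Or.inl ⟨hxA, hx⟩)
      · by_cases hxA' : x ∈ T^[n] ⁻¹' A
        · exact Or.inr (Or.inr ⟨hxA', hx⟩)
        · exact Or.inl ⟨⟨hx.1, hxA⟩, ⟨hx.2, hxA'⟩⟩
    have h3 : μ.real (D ∩ T^[n] ⁻¹' D) ≤ μ.real ((D \ A) ∩ T^[n] ⁻¹' (D \ A)) +
        (μ.real (A ∩ (D ∩ T^[n] ⁻¹' D)) + μ.real (T^[n] ⁻¹' A ∩ (D ∩ T^[n] ⁻¹' D))) :=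
      (measureReal_mono hsub).trans ((measureReal_union_le _ _).trans
        (add_le_add le_rfl (measureReal_union_le _ _)))
    linarith [h1.2, h2.2]
  · intro n hn
    have h1 := hind n A hAm rfl rfl
    rw [abs_le] at h1
    have hsub : (D ∩ T^[n] ⁻¹' D) ⊆ ((D \ A) ∩ T^[n] ⁻¹' (D \ A)) ∪
        ((A ∩ (D ∩ T^[n] ⁻¹' D)) ∪ (A ∆ (T^[n] ⁻¹' A))) := by
      intro x hx
      by_cases hxA : x ∈ A
      · exact Or.inr (Or.inl ⟨hxA, hx⟩)
      · by_cases hxA' : x ∈ T^[n] ⁻¹' A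
        · exact Or.inr (Or.inr (Or.inr ⟨hxA', hxA⟩))
        · exact Or.inl ⟨⟨hx.1, hxA⟩, ⟨hx.2, hxA'⟩⟩
    have h3 : μ.real (D ∩ T^[n] ⁻¹' D) ≤ μ.real ((D \ A) ∩ T^[n] ⁻¹' (D \ A)) +
        (μ.real (A ∩ (D ∩ T^[n] ⁻¹' D)) + μ.real (A ∆ (T^[n] ⁻¹' A))) :=
      (measureReal_mono hsub).trans ((measureReal_union_le _ _).trans
        (add_le_add le_rfl (measureReal_union_le _ _)))
    have h4 : μ.real (A ∆ (T^[n] ⁻¹' A)) ≤ e / 4 := by
      refine (symmDiff_iter_le hT hAm n).trans ?_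
      have hnM : (n : ℝ) ≤ M := by exact_mod_cast hn
      calc (n : ℝ) * μ.real (A ∆ (T^[1] ⁻¹' A)) ≤ M * ε :=
            mul_le_mul hnM hA3 measureReal_nonneg (Nat.cast_nonneg M)
        _ ≤ e / 4 := hMε
    linarith [h1.2]

/-- dependent choice along the natural numbers -/
lemma dep_choice {α : Type*} (P : ℕ → α → Prop) (R : α → α → Prop) (h0 : ∃ a, P 0 a)
    (hs : ∀ k a, P k a → ∃ b, P (k + 1) b ∧ R a b) :
    ∃ f : ℕ → α, ∀ k, P k (f k) ∧ R (f k) (f (k + 1)) := by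
  classical
  obtain ⟨a0, ha0⟩ := h0
  choose! g hg1 hg2 using hs
  let f : ℕ → α := fun k => Nat.rec a0 (fun k a => g k a) k
  have hf : ∀ k, P k (f k) := by
    intro k
    induction k with
    | zero => exact ha0
    | succ k ih => exact hg1 k _ ih
  exact ⟨f, fun k => ⟨hf k, hg2 k _ (hf k)⟩⟩

/-- the sequence of thresholds -/
noncomputable def tt (k : ℕ) : ℝ := (1 / 2) ^ k / 32

lemma tt_pos (k : ℕ) : 0 < tt k := by unfold tt; positivity

lemma tt_le (k : ℕ) : tt k ≤ 1 / 32 := by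
  unfold tt
  have : ((1 : ℝ) / 2) ^ k ≤ 1 := pow_le_one₀ (by norm_num) (by norm_num)
  linarith

lemma tt_succ (k : ℕ) : tt (k + 1) = tt k / 2 := by
  unfold tt; rw [pow_succ]; ring

/-- the inductive invariant -/
def Inv (μ : Measure X) (T : X → X) (k : ℕ) (s : Set X × ℕ) : Prop :=
  MeasurableSet s.1 ∧ 13 / 16 + 6 * tt k ≤ μ.real s.1 ∧ k ≤ s.2 ∧
  (∀ n, 1 ≤ n → n ≤ s.2 → μ.real s.1 ^ 2 < μ.real (s.1 ∩ T^[n] ⁻¹' s.1)) ∧
  (∀ n, s.2 < n → (1 - tt k) * μ.real s.1 ^ 2 ≤ μ.real (s.1 ∩ T^[n] ⁻¹' s.1))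

/-- the relation between consecutive stages -/
def Rel (μ : Measure X) (T : X → X) (s s' : Set X × ℕ) : Prop :=
  s'.1 ⊆ s.1 ∧ s.2 ≤ s'.2 ∧ ∀ n, 1 ≤ n → n ≤ s.2 →
    μ.real (s.1 ∩ T^[n] ⁻¹' s.1) * μ.real s'.1 ^ 2 ≤
      μ.real (s'.1 ∩ T^[n] ⁻¹' s'.1) * μ.real s.1 ^ 2

lemma inv_zero : ∃ s : Set X × ℕ, Inv μ T 0 s := by
  refine ⟨(univ, 0), MeasurableSet.univ, ?_, le_rfl, ?_, ?_⟩
  · simp [tt]; norm_num
  · intro n h1 h2
    simp only at h2
    omega
  · intro n _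
    have := tt_pos 0
    simp
    linarith

lemma inv_succ (hT : MeasurePreserving T μ μ) (hM : Mix μ T)
    (hA : ∃ A : Set X, MeasurableSet A ∧ 0 < μ.real A ∧ μ.real A < 1)
    (k : ℕ) (s : Set X × ℕ) (hs : Inv μ T k s) :
    ∃ s' : Set X × ℕ, Inv μ T (k + 1) s' ∧ Rel μ T s s' := by
  obtain ⟨D, N⟩ := s
  obtain ⟨hD, hd, hkN, hsm, hlg⟩ := hs
  simp only at hD hd hkN hsm hlg
  set d := μ.real D with hdd
  set t := tt k with ht
  have ht0 : 0 < t := tt_pos k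
  have ht1 : t ≤ 1 / 32 := tt_le k
  have hd1 : d ≤ 1 := measureReal_le_one
  have hd0 : 13 / 16 ≤ d := by linarith
  have hdpos : 0 < d := by linarith
  -- choose the threshold
  have hlim := hM D D hD hD
  have hthr : (1 - t / 4) * d ^ 2 < μ.real D * μ.real D := by
    rw [← hdd]
    nlinarith [mul_pos ht0 (mul_pos hdpos hdpos)]
  obtain ⟨N1, hN1⟩ := eventually_atTop.mp (hlim.eventually (eventually_gt_nhds hthr))
  set N' := max (N + 1) N1 with hN'
  set e := t * d ^ 2 / 100 with he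
  have he0 : 0 < e := by positivity
  have hd2 : d ^ 2 ≤ 1 := by nlinarith
  have hd2p : 0 < d ^ 2 := by positivity
  have he1 : e ≤ 1 := by
    rw [he]
    nlinarith
  obtain ⟨D', hsub, hD', hm1, hm2, hall, hshort⟩ :=
    step hT hM hA hD (2 * t) e (by linarith) (by linarith) he0 N'
  rw [← hdd] at hm1 hm2
  set d' := μ.real D' with hdd'
  have hd'0 : 0 ≤ d' := measureReal_nonneg
  -- upper bound for the square of the new measure
  have hsq : d' ^ 2 ≤ (1 - 2 * t) ^ 2 * d ^ 2 + 3 * e := by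
    have h1 : d' ^ 2 ≤ ((1 - 2 * t) * d + e) ^ 2 := pow_le_pow_left₀ hd'0 hm2 2
    have h2 : ((1 - 2 * t) * d + e) ^ 2 = (1 - 2 * t) ^ 2 * d ^ 2 + 2 * ((1 - 2 * t) * d) * e +
      e * e := by ring
    have h3 : (1 - 2 * t) * d ≤ 1 := by nlinarith
    have h4 : 2 * ((1 - 2 * t) * d) * e ≤ 2 * 1 * e := by gcongr
    have h5 : e * e ≤ 1 * e := by gcongr
    linarith
  refine ⟨(D', N'), ⟨hD', ?_, ?_, ?_, ?_⟩, hsub, ?_, ?_⟩
  · simp only
    rw [tt_succ, ← ht, ← hdd']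
    have : e ≤ t / 100 := by rw [he]; nlinarith
    nlinarith
  · simp only
    omega
  · -- strict inequality up to the new threshold
    intro n hn1 hn2
    simp only at hn2 ⊢
    rw [← hdd']
    have h1 := hshort n hn2
    set c := μ.real (D ∩ T^[n] ⁻¹' D) with hc
    have hc1 : (1 - t) * d ^ 2 ≤ c := by
      by_cases hnN : n ≤ N
      · have := hsm n hn1 hnN
        nlinarith [mul_pos ht0 hd2p]
      · exact hlg n (not_le.mp hnN)
    have h2 : (1 - 2 * t) * ((1 - t) * d ^ 2) ≤ (1 - 2 * t) * c :=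
      mul_le_mul_of_nonneg_left hc1 (by linarith)
    have h3 : (1 - 2 * t) * ((1 - t) * d ^ 2) = (1 - 2 * t) ^ 2 * d ^ 2 +
      t * d ^ 2 * (1 - 2 * t) := by ring
    have h4 : 5 * e < t * d ^ 2 * (1 - 2 * t) := by
      rw [he]
      have : 0 < t * d ^ 2 := by positivity
      nlinarith
    linarith
  · -- weak inequality beyond the new threshold
    intro n hn
    simp only at hn ⊢
    rw [← hdd', tt_succ, ← ht]
    have h1 := hall n
    set c := μ.real (D ∩ T^[n] ⁻¹' D) with hc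
    have hc1 : (1 - t / 4) * d ^ 2 < c := by
      apply hN1
      exact (le_max_right (N + 1) N1).trans hn.le
    have h2 : (1 - 2 * (2 * t)) * ((1 - t / 4) * d ^ 2) ≤ (1 - 2 * (2 * t)) * c :=
      mul_le_mul_of_nonneg_left hc1.le (by linarith)
    have h3 : (1 - 2 * (2 * t)) * ((1 - t / 4) * d ^ 2) =
      (1 - t / 2) * ((1 - 2 * t) ^ 2 * d ^ 2) + t * d ^ 2 * (1 / 4 - 5 * t + 2 * t ^ 2) := by
      ring
    have h4 : 5 * e ≤ t * d ^ 2 * (1 / 4 - 5 * t + 2 * t ^ 2) := by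
      rw [he]
      have h5 : 0 < t * d ^ 2 := by positivity
      have h6 : (1 : ℝ) / 20 ≤ 1 / 4 - 5 * t + 2 * t ^ 2 := by nlinarith
      nlinarith
    have h7 : (1 - t / 2) * d' ^ 2 ≤ (1 - t / 2) * ((1 - 2 * t) ^ 2 * d ^ 2 + 3 * e) :=
      mul_le_mul_of_nonneg_left hsq (by linarith)
    have h8 : (1 - t / 2) * (3 * e) ≤ 3 * e := by nlinarith
    nlinarith
  · simp only
    exact (Nat.le_succ N).trans (le_max_left _ _)
  · -- monotonicity of the ratio
    intro n hn1 hn2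
    simp only at hn2 ⊢
    rw [← hdd, ← hdd']
    have hnN' : n ≤ N' := hn2.trans ((Nat.le_succ N).trans (le_max_left _ _))
    have h1 := hshort n hnN'
    have h2 := hsm n hn1 hn2
    set c := μ.real (D ∩ T^[n] ⁻¹' D) with hc
    set c' := μ.real (D' ∩ T^[n] ⁻¹' D') with hc'
    have hcpos : 0 < c := lt_trans hd2p h2
    have h3 : c * d' ^ 2 ≤ c * ((1 - 2 * t) ^ 2 * d ^ 2 + 3 * e) :=
      mul_le_mul_of_nonneg_left hsq hcpos.le
    have h4 : ((1 - 2 * t) * c - 2 * e) * d ^ 2 ≤ c' * d ^ 2 :=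
      mul_le_mul_of_nonneg_right h1 hd2p.le
    have h5 : 2 * e * d ^ 2 ≤ 2 * e * c := by
      apply mul_le_mul_of_nonneg_left h2.le (by positivity)
    have h6 : 5 * e ≤ (2 * t) * (1 - 2 * t) * d ^ 2 := by
      rw [he]
      have : 0 < t * d ^ 2 := by positivity
      nlinarith
    have h7 : 5 * e * c ≤ (2 * t) * (1 - 2 * t) * d ^ 2 * c :=
      mul_le_mul_of_nonneg_right h6 hcpos.le
    nlinarith

/-- **Main theorem**: every mixing system with a set of measure strictly between 0 and 1 has a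
strictly over-recurrent set (of measure at least 13/16). -/
theorem exists_overrec (hT : MeasurePreserving T μ μ) (hM : Mix μ T)
    (hA : ∃ A : Set X, MeasurableSet A ∧ 0 < μ.real A ∧ μ.real A < 1) :
    ∃ D : Set X, MeasurableSet D ∧ 0 < μ.real D ∧
      ∀ n : ℕ, 1 ≤ n → μ.real D ^ 2 < μ.real (D ∩ T^[n] ⁻¹' D) := by
  obtain ⟨f, hf⟩ := dep_choice (Inv μ T) (Rel μ T) inv_zero
    (fun k s hs => inv_succ hT hM hA k s hs)
  set Dk : ℕ → Set X := fun k => (f k).1 with hDk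
  have hmeas : ∀ k, MeasurableSet (Dk k) := fun k => (hf k).1.1
  have hanti : Antitone Dk := antitone_nat_of_succ_le fun k => (hf k).2.1
  have hNmono : Monotone (fun k => (f k).2) := monotone_nat_of_le_succ fun k => (hf k).2.2.1
  set D := ⋂ k, Dk k with hD
  have hDm : MeasurableSet D := MeasurableSet.iInter hmeas
  have hlim : Tendsto (fun k => μ.real (Dk k)) atTop (𝓝 (μ.real D)) := by
    have h1 := tendsto_measure_iInter_atTop (μ := μ) (fun k => (hmeas k).nullMeasurableSet) hanti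
      ⟨0, measure_ne_top _ _⟩
    exact (ENNReal.tendsto_toReal (measure_ne_top _ _)).comp h1
  have hlimn : ∀ n, Tendsto (fun k => μ.real (Dk k ∩ T^[n] ⁻¹' Dk k)) atTop
      (𝓝 (μ.real (D ∩ T^[n] ⁻¹' D))) := by
    intro n
    have hanti2 : Antitone (fun k => Dk k ∩ T^[n] ⁻¹' Dk k) := fun i j hij =>
      inter_subset_inter (hanti hij) (preimage_mono (hanti hij))
    have h1 := tendsto_measure_iInter_atTop (μ := μ)
      (fun k => ((hmeas k).inter (meas_pre hT n (hmeas k))).nullMeasurableSet) hanti2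
      ⟨0, measure_ne_top _ _⟩
    have h2 : ⋂ k, (Dk k ∩ T^[n] ⁻¹' Dk k) = D ∩ T^[n] ⁻¹' D := by
      rw [hD, preimage_iInter, iInter_inter_distrib]
    rw [h2] at h1
    exact (ENNReal.tendsto_toReal (measure_ne_top _ _)).comp h1
  have hDpos : 13 / 16 ≤ μ.real D := by
    refine ge_of_tendsto hlim (Eventually.of_forall fun k => ?_)
    have h1 := (hf k).1.2.1
    have h2 := tt_pos k
    simp only [hDk]
    linarith
  refine ⟨D, hDm, by linarith, fun n hn => ?_⟩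
  -- the ratio is monotone from stage n on
  have hkn : n ≤ (f n).2 := (hf n).1.2.2.1
  have hdpos : ∀ k, 0 < μ.real (Dk k) := fun k => by
    have h1 := (hf k).1.2.1
    have h2 := tt_pos k
    simp only [hDk]
    linarith
  have hratio : ∀ j, μ.real (Dk n ∩ T^[n] ⁻¹' Dk n) * μ.real (Dk (n + j)) ^ 2 ≤
      μ.real (Dk (n + j) ∩ T^[n] ⁻¹' Dk (n + j)) * μ.real (Dk n) ^ 2 := by
    intro j
    induction j with
    | zero => exact le_rfl
    | succ j ih =>
      have h1 := (hf (n + j)).2.2.2 n hn (hkn.trans (hNmono (Nat.le_add_right n j)))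
      have h2 := hdpos (n + j)
      have h3 : 0 ≤ μ.real (Dk (n + (j + 1))) ^ 2 := sq_nonneg _
      have h4 : 0 ≤ μ.real (Dk n) ^ 2 := sq_nonneg _
      have h5 := mul_le_mul_of_nonneg_right ih h3
      have h6 := mul_le_mul_of_nonneg_right h1 h4
      have h7 : 0 < μ.real (Dk (n + j)) ^ 2 := by positivity
      have h8 : μ.real (Dk n ∩ T^[n] ⁻¹' Dk n) * μ.real (Dk (n + (j + 1))) ^ 2 *
          μ.real (Dk (n + j)) ^ 2 ≤
          μ.real (Dk (n + (j + 1)) ∩ T^[n] ⁻¹' Dk (n + (j + 1))) * μ.real (Dk n) ^ 2 *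
            μ.real (Dk (n + j)) ^ 2 := by
        simp only [hDk] at h5 h6 ⊢
        simp only [add_assoc] at h5 h6 ⊢
        linarith
      exact le_of_mul_le_mul_right h8 h7
  have hlim2 : μ.real (Dk n ∩ T^[n] ⁻¹' Dk n) * μ.real D ^ 2 ≤
      μ.real (D ∩ T^[n] ⁻¹' D) * μ.real (Dk n) ^ 2 := by
    have hshift : Tendsto (fun j => n + j) atTop atTop := tendsto_add_atTop_nat n |>.congr
      (fun j => add_comm j n)
    exact le_of_tendsto_of_tendsto' (((hlim.comp hshift).pow 2).const_mul _)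
      (((hlimn n).comp hshift).mul_const _) hratio
  have hstart : μ.real (Dk n) ^ 2 < μ.real (Dk n ∩ T^[n] ⁻¹' Dk n) :=
    (hf n).1.2.2.2.1 n hn hkn
  have h1 : 0 < μ.real D ^ 2 := by
    have : 0 < μ.real D := by linarith
    positivity
  have h2 : 0 < μ.real (Dk n) ^ 2 := pow_pos (hdpos n) 2
  have h3 : μ.real (Dk n) ^ 2 * μ.real D ^ 2 < μ.real (D ∩ T^[n] ⁻¹' D) * μ.real (Dk n) ^ 2 :=
    (mul_lt_mul_of_pos_right hstart h1).trans_le hlim2
  rw [mul_comm] at h3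
  exact lt_of_mul_lt_mul_right h3 h2.le

end Pool.Agent.Y312.OverRec
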