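import Mathlib

/-!
# Almost invariant sets and uniform near independence in mixing systems
-/

set_option autoImplicit false
set_option linter.unusedSectionVars false
open MeasureTheory Filter Topology Set
open scoped symmDiff

namespace Pool.Agent.Y312.OverRec

variable {X : Type*} [MeasurableSpace X] {μ : Measure X} [IsProbabilityMeasure μ] {T : X → X}

/-- mixing in terms of real valued measures -/
def Mix (μ : Measure X) (T : X → X) : Prop :=
  ∀ A B : Set X, MeasurableSet A → MeasurableSet B →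
    Tendsto (fun n : ℕ => μ.real (A ∩ T^[n] ⁻¹' B)) atTop (𝓝 (μ.real A * μ.real B))

lemma pre_real (hT : MeasurePreserving T μ μ) (n : ℕ) {A : Set X} (hA : MeasurableSet A) :
    μ.real (T^[n] ⁻¹' A) = μ.real A :=
  (hT.iterate n).measureReal_preimage hA.nullMeasurableSet

lemma meas_pre (hT : MeasurePreserving T μ μ) (n : ℕ) {A : Set X} (hA : MeasurableSet A) :
    MeasurableSet (T^[n] ⁻¹' A) :=
  (hT.iterate n).measurable hA

lemma pre_add (m n : ℕ) (A : Set X) : T^[n + m] ⁻¹' A = T^[m] ⁻¹' (T^[n] ⁻¹' A) := by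
  rw [Function.iterate_add, preimage_comp]

lemma shift_real (hT : MeasurePreserving T μ μ) (m n : ℕ) {A B : Set X}
    (hA : MeasurableSet A) (hB : MeasurableSet B) :
    μ.real (T^[m] ⁻¹' A ∩ T^[n + m] ⁻¹' B) = μ.real (A ∩ T^[n] ⁻¹' B) := by
  rw [pre_add, ← preimage_inter]
  exact pre_real hT m (hA.inter (meas_pre hT n hB))

/-- the measure of the symmetric difference controls intersections -/
lemma abs_inter_sub_le (A B F : Set X) :
    |μ.real (A ∩ F) - μ.real (B ∩ F)| ≤ μ.real (A ∆ B) := by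
  have h1 : μ.real (A ∩ F) ≤ μ.real (B ∩ F) + μ.real (A ∆ B) := by
    refine le_trans (measureReal_mono ?_) (measureReal_union_le _ _)
    intro x hx
    by_cases h : x ∈ B
    · exact Or.inl ⟨h, hx.2⟩
    · exact Or.inr (Or.inl ⟨hx.1, h⟩)
  have h2 : μ.real (B ∩ F) ≤ μ.real (A ∩ F) + μ.real (A ∆ B) := by
    refine le_trans (measureReal_mono ?_) (measureReal_union_le _ _)
    intro x hx
    by_cases h : x ∈ A
    · exact Or.inl ⟨h, hx.2⟩
    · exact Or.inr (Or.inr ⟨hx.1, h⟩)
  rw [abs_le]; constructor <;> linarith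

/-- iterated almost invariance -/
lemma symmDiff_iter_le (hT : MeasurePreserving T μ μ) {A : Set X} (hA : MeasurableSet A) (m : ℕ) :
    μ.real (A ∆ (T^[m] ⁻¹' A)) ≤ m * μ.real (A ∆ (T^[1] ⁻¹' A)) := by
  induction m with
  | zero => simp
  | succ m ih =>
    have h1 : μ.real (A ∆ (T^[m+1] ⁻¹' A)) ≤ μ.real (A ∆ (T^[m] ⁻¹' A)) +
        μ.real ((T^[m] ⁻¹' A) ∆ (T^[m+1] ⁻¹' A)) := measureReal_symmDiff_le _
    have h2 : μ.real ((T^[m] ⁻¹' A) ∆ (T^[m+1] ⁻¹' A)) = μ.real (A ∆ (T^[1] ⁻¹' A)) := by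
      rw [add_comm m 1, pre_add, ← preimage_symmDiff]
      exact pre_real hT m (hA.symmDiff (meas_pre hT 1 hA))
    push_cast
    linarith

/-- almost invariance is the same for preimages -/
lemma symmDiff_pre (hT : MeasurePreserving T μ μ) {A : Set X} (hA : MeasurableSet A) (n : ℕ) :
    μ.real ((T^[n] ⁻¹' A) ∆ (T^[1] ⁻¹' (T^[n] ⁻¹' A))) = μ.real (A ∆ (T^[1] ⁻¹' A)) := by
  rw [← pre_add, add_comm n 1, pre_add, ← preimage_symmDiff]
  exact pre_real hT n (hA.symmDiff (meas_pre hT 1 hA))

/-- the elementary inequality behind Chebyshev -/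
lemma abs_le_quad (y η : ℝ) (hη : 0 < η) : |y| ≤ η / 2 + y ^ 2 / (2 * η) := by
  have h : 0 ≤ (|y| - η) ^ 2 := sq_nonneg _
  have h2 : |y| ^ 2 = y ^ 2 := sq_abs y
  have h3 : |y| = (η / 2 + y ^ 2 / (2 * η)) - (|y| - η) ^ 2 / (2 * η) := by
    rw [← h2]; field_simp; ring
  have h4 : 0 ≤ (|y| - η) ^ 2 / (2 * η) := by positivity
  linarith

section variance

/-- the centred indicator of the preimage of `F` under the iterate number `k` -/
noncomputable def cind (T : X → X) (μ : Measure X) (F : Set X) (k : ℕ) : X → ℝ :=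
  fun x => (T^[k] ⁻¹' F).indicator (fun _ => (1 : ℝ)) x - μ.real F

lemma cind_meas (hT : MeasurePreserving T μ μ) {F : Set X} (hF : MeasurableSet F) (k : ℕ) :
    Measurable (cind T μ F k) :=
  (measurable_const.indicator (meas_pre hT k hF)).sub measurable_const

lemma cind_bound (F : Set X) (k : ℕ) (x : X) : |cind T μ F k x| ≤ 1 := by
  unfold cind
  have h0 : 0 ≤ μ.real F := measureReal_nonneg
  have h1 : μ.real F ≤ 1 := measureReal_le_one
  by_cases h : x ∈ T^[k] ⁻¹' F
  · rw [indicator_of_mem h, abs_le]; constructor <;> linarith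
  · rw [indicator_of_notMem h, abs_le]; constructor <;> linarith

lemma cind_int (hT : MeasurePreserving T μ μ) {F : Set X} (hF : MeasurableSet F) (k : ℕ) :
    Integrable (cind T μ F k) μ :=
  Integrable.of_bound (cind_meas hT hF k).aestronglyMeasurable 1
    (Eventually.of_forall fun x => by rw [Real.norm_eq_abs]; exact cind_bound F k x)

lemma cind_mul_int (hT : MeasurePreserving T μ μ) {F : Set X} (hF : MeasurableSet F) (j k : ℕ) :
    Integrable (fun x => cind T μ F j x * cind T μ F k x) μ :=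
  Integrable.of_bound ((cind_meas hT hF j).mul (cind_meas hT hF k)).aestronglyMeasurable 1
    (Eventually.of_forall fun x => by
      rw [Real.norm_eq_abs, abs_mul]
      have h1 := cind_bound (μ := μ) (T := T) F j x
      have h2 := cind_bound (μ := μ) (T := T) F k x
      calc |cind T μ F j x| * |cind T μ F k x| ≤ 1 * 1 :=
            mul_le_mul h1 h2 (abs_nonneg _) zero_le_one
        _ = 1 := one_mul 1)

lemma cind_mul_integral (hT : MeasurePreserving T μ μ) {F : Set X} (hF : MeasurableSet F)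
    (j k : ℕ) :
    ∫ x, cind T μ F j x * cind T μ F k x ∂μ =
      μ.real (T^[j] ⁻¹' F ∩ T^[k] ⁻¹' F) - μ.real F ^ 2 := by
  have hj := meas_pre (μ := μ) hT j hF
  have hk := meas_pre (μ := μ) hT k hF
  set c := μ.real F with hc
  have e : ∀ x, cind T μ F j x * cind T μ F k x =
      (T^[j] ⁻¹' F ∩ T^[k] ⁻¹' F).indicator (fun _ => (1 : ℝ)) x
      - c * (T^[j] ⁻¹' F).indicator (fun _ => (1 : ℝ)) x
      - c * (T^[k] ⁻¹' F).indicator (fun _ => (1 : ℝ)) x + c ^ 2 := by
    intro x
    unfold cind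
    by_cases h1 : x ∈ T^[j] ⁻¹' F <;> by_cases h2 : x ∈ T^[k] ⁻¹' F
    · rw [indicator_of_mem h1, indicator_of_mem h2, indicator_of_mem (mem_inter h1 h2)]; ring
    · rw [indicator_of_mem h1, indicator_of_notMem h2, indicator_of_notMem (fun h => h2 h.2)]; ring
    · rw [indicator_of_notMem h1, indicator_of_mem h2, indicator_of_notMem (fun h => h1 h.1)]; ring
    · rw [indicator_of_notMem h1, indicator_of_notMem h2, indicator_of_notMem (fun h => h2 h.2)]
      ring
  have i1 : Integrable ((T^[j] ⁻¹' F ∩ T^[k] ⁻¹' F).indicator (fun _ => (1 : ℝ))) μ :=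
    (integrable_const 1).indicator (hj.inter hk)
  have i2 : Integrable ((T^[j] ⁻¹' F).indicator (fun _ => (1 : ℝ))) μ :=
    (integrable_const 1).indicator hj
  have i3 : Integrable ((T^[k] ⁻¹' F).indicator (fun _ => (1 : ℝ))) μ :=
    (integrable_const 1).indicator hk
  have i12 : Integrable (fun x => (T^[j] ⁻¹' F ∩ T^[k] ⁻¹' F).indicator (fun _ => (1 : ℝ)) x
      - c * (T^[j] ⁻¹' F).indicator (fun _ => (1 : ℝ)) x) μ := i1.sub (i2.const_mul c)
  have i13 : Integrable (fun x => (T^[j] ⁻¹' F ∩ T^[k] ⁻¹' F).indicator (fun _ => (1 : ℝ)) x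
      - c * (T^[j] ⁻¹' F).indicator (fun _ => (1 : ℝ)) x
      - c * (T^[k] ⁻¹' F).indicator (fun _ => (1 : ℝ)) x) μ := i12.sub (i3.const_mul c)
  simp_rw [e]
  rw [integral_add i13 (integrable_const _),
    integral_sub i12 (i3.const_mul c),
    integral_sub i1 (i2.const_mul c), integral_const_mul, integral_const_mul,
    integral_indicator_const _ (hj.inter hk), integral_indicator_const _ hj,
    integral_indicator_const _ hk, pre_real hT j hF, pre_real hT k hF]
  simp
  ring

end variance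

end Pool.Agent.Y312.OverRec
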