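import Pool.Agent.Y312.OR.Basic

/-!
# Near independence of almost invariant sets
-/

set_option autoImplicit false
set_option linter.unusedSectionVars false
open MeasureTheory Filter Topology Set
open scoped symmDiff

namespace Pool.Agent.Y312.OverRec

variable {X : Type*} [MeasurableSpace X] {μ : Measure X} [IsProbabilityMeasure μ] {T : X → X}

lemma variance_bound (hT : MeasurePreserving T μ μ) {F : Set X} (hF : MeasurableSet F)
    (N H : ℕ) (δ : ℝ) (hδ : 0 ≤ δ)
    (h : ∀ j, 1 ≤ j → j < N → μ.real (F ∩ T^[j * H] ⁻¹' F) ≤ μ.real F ^ 2 + δ) :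
    ∫ x, (∑ i ∈ Finset.range N, cind T μ F (i * H) x) ^ 2 ∂μ ≤ (N : ℝ) ^ 2 * δ + N := by
  have e : ∀ x, (∑ i ∈ Finset.range N, cind T μ F (i * H) x) ^ 2 =
      ∑ i ∈ Finset.range N, ∑ j ∈ Finset.range N,
        cind T μ F (i * H) x * cind T μ F (j * H) x := by
    intro x
    rw [sq, Finset.sum_mul_sum]
  simp_rw [e]
  rw [integral_finsetSum _ (fun i _ => integrable_finsetSum _ (fun j _ =>
    cind_mul_int hT hF (i * H) (j * H)))]
  have e2 : ∀ i ∈ Finset.range N,
      ∫ x, ∑ j ∈ Finset.range N, cind T μ F (i * H) x * cind T μ F (j * H) x ∂μ =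
      ∑ j ∈ Finset.range N, (μ.real (T^[i * H] ⁻¹' F ∩ T^[j * H] ⁻¹' F) - μ.real F ^ 2) := by
    intro i _
    rw [integral_finsetSum _ (fun j _ => cind_mul_int hT hF (i * H) (j * H))]
    exact Finset.sum_congr rfl (fun j _ => cind_mul_integral hT hF (i * H) (j * H))
  rw [Finset.sum_congr rfl e2]
  have key : ∀ i ∈ Finset.range N, ∀ j ∈ Finset.range N,
      μ.real (T^[i * H] ⁻¹' F ∩ T^[j * H] ⁻¹' F) - μ.real F ^ 2 ≤
        δ + (if i = j then (1 : ℝ) else 0) := by
    intro i hi j hj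
    rw [Finset.mem_range] at hi hj
    rcases lt_trichotomy i j with hij | hij | hij
    · obtain ⟨d, rfl⟩ := Nat.exists_eq_add_of_lt hij
      have h1 : (i + d + 1) * H = (d + 1) * H + i * H := by ring
      rw [h1, shift_real hT _ _ hF hF, if_neg (by omega)]
      have := h (d + 1) (by omega) (by omega)
      linarith
    · rw [if_pos hij]
      have h1 : μ.real (T^[i * H] ⁻¹' F ∩ T^[j * H] ⁻¹' F) ≤ 1 := measureReal_le_one
      have h2 : 0 ≤ μ.real F ^ 2 := sq_nonneg _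
      linarith
    · obtain ⟨d, rfl⟩ := Nat.exists_eq_add_of_lt hij
      have h1 : (j + d + 1) * H = (d + 1) * H + j * H := by ring
      rw [h1, inter_comm, shift_real hT _ _ hF hF, if_neg (by omega)]
      have := h (d + 1) (by omega) (by omega)
      linarith
  calc ∑ i ∈ Finset.range N, ∑ j ∈ Finset.range N,
        (μ.real (T^[i * H] ⁻¹' F ∩ T^[j * H] ⁻¹' F) - μ.real F ^ 2)
      ≤ ∑ i ∈ Finset.range N, ∑ j ∈ Finset.range N, (δ + (if i = j then (1 : ℝ) else 0)) :=
        Finset.sum_le_sum fun i hi => Finset.sum_le_sum fun j hj => key i hi j hj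
    _ = (N : ℝ) ^ 2 * δ + N := by
        simp only [Finset.sum_add_distrib, Finset.sum_const, Finset.card_range, nsmul_eq_mul,
          Finset.sum_ite_eq, Finset.mem_range]
        rw [Finset.sum_congr rfl (fun x hx => if_pos (Finset.mem_range.mp hx))]
        simp
        ring

lemma near_indep (hT : MeasurePreserving T μ μ) {F : Set X} (hF : MeasurableSet F)
    (N H : ℕ) (η : ℝ) (hη : 0 < η) (hN : 2 / η ^ 2 ≤ N)
    (h : ∀ j, 1 ≤ j → j < N → μ.real (F ∩ T^[j * H] ⁻¹' F) ≤ μ.real F ^ 2 + η ^ 2 / 2)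
    {A : Set X} (hA : MeasurableSet A) :
    |μ.real (A ∩ F) - μ.real A * μ.real F| ≤
      η + (N * H : ℕ) * μ.real (A ∆ (T^[1] ⁻¹' A)) := by
  set c := μ.real F with hc
  set ε := μ.real (A ∆ (T^[1] ⁻¹' A)) with hε
  have hN0 : (0 : ℝ) < N := lt_of_lt_of_le (by positivity) hN
  have hε0 : 0 ≤ ε := measureReal_nonneg
  set S : X → ℝ := fun x => ∑ i ∈ Finset.range N, cind T μ F (i * H) x with hS
  have hV : ∫ x, S x ^ 2 ∂μ ≤ (N : ℝ) ^ 2 * η ^ 2 := by
    have h1 := variance_bound hT hF N H (η ^ 2 / 2) (by positivity) h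
    have h2 : (N : ℝ) ≤ (N : ℝ) ^ 2 * (η ^ 2 / 2) := by
      have : 1 ≤ (N : ℝ) * (η ^ 2 / 2) := by
        rw [div_le_iff₀ (by positivity)] at hN
        linarith
      nlinarith
    calc ∫ x, S x ^ 2 ∂μ ≤ (N : ℝ) ^ 2 * (η ^ 2 / 2) + N := h1
      _ ≤ _ := by linarith
  have hSint : Integrable S μ := integrable_finsetSum _ (fun i _ => cind_int hT hF (i * H))
  have hSmeas : Measurable S := Finset.measurable_sum _ (fun i _ => cind_meas hT hF (i * H))
  have hSb : ∀ x, |S x| ≤ N := by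
    intro x
    calc |S x| ≤ ∑ i ∈ Finset.range N, |cind T μ F (i * H) x| := Finset.abs_sum_le_sum_abs _ _
      _ ≤ ∑ i ∈ Finset.range N, (1 : ℝ) := Finset.sum_le_sum fun i _ => cind_bound F (i * H) x
      _ = N := by simp
  have hS2int : Integrable (fun x => S x ^ 2) μ :=
    Integrable.of_bound (hSmeas.pow_const 2).aestronglyMeasurable ((N : ℝ) ^ 2)
      (Eventually.of_forall fun x => by
        rw [Real.norm_eq_abs, abs_pow]
        exact pow_le_pow_left₀ (abs_nonneg _) (hSb x) 2)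
  have hSabs : ∫ x, |S x| ∂μ ≤ N * η := by
    have h1 : ∀ x, |S x| ≤ (N * η) / 2 + S x ^ 2 / (2 * (N * η)) := fun x =>
      abs_le_quad (S x) (N * η) (by positivity)
    calc ∫ x, |S x| ∂μ ≤ ∫ x, ((N * η) / 2 + S x ^ 2 / (2 * (N * η))) ∂μ :=
          integral_mono hSint.abs ((integrable_const _).add (hS2int.div_const _)) h1
      _ = (N * η) / 2 + (∫ x, S x ^ 2 ∂μ) / (2 * (N * η)) := by
          rw [integral_add (integrable_const _) (hS2int.div_const _)]
          simp [integral_div]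
      _ ≤ (N * η) / 2 + ((N : ℝ) ^ 2 * η ^ 2) / (2 * (N * η)) := by gcongr
      _ = N * η := by field_simp; ring
  have hSA : |∫ x in A, S x ∂μ| ≤ N * η := by
    calc |∫ x in A, S x ∂μ| ≤ ∫ x in A, |S x| ∂μ := abs_integral_le_integral_abs
      _ ≤ ∫ x, |S x| ∂μ := setIntegral_le_integral hSint.abs (Eventually.of_forall fun x => abs_nonneg _)
      _ ≤ _ := hSabs
  have hSA2 : ∫ x in A, S x ∂μ =
      ∑ i ∈ Finset.range N, (μ.real (A ∩ T^[i * H] ⁻¹' F) - μ.real A * c) := by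
    rw [hS, integral_finsetSum _ (fun i _ => (cind_int hT hF (i * H)).integrableOn)]
    refine Finset.sum_congr rfl fun i _ => ?_
    unfold cind
    rw [integral_sub ((integrable_const (1 : ℝ)).indicator (meas_pre hT (i * H) hF)).integrableOn
      (integrable_const _), setIntegral_indicator (meas_pre hT (i * H) hF)]
    simp
    exact Or.inl hc.symm
  have hterm : ∀ i ∈ Finset.range N,
      |μ.real (A ∩ F) - μ.real (A ∩ T^[i * H] ⁻¹' F)| ≤ (N * H : ℕ) * ε := by
    intro i hi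
    rw [Finset.mem_range] at hi
    have h1 : μ.real (A ∩ F) = μ.real (T^[i * H] ⁻¹' A ∩ T^[i * H] ⁻¹' F) := by
      have := shift_real (μ := μ) hT (i * H) 0 hA hF
      simp only [zero_add, Function.iterate_zero, preimage_id] at this
      exact this.symm
    rw [h1, abs_sub_comm]
    calc |μ.real (A ∩ T^[i * H] ⁻¹' F) - μ.real (T^[i * H] ⁻¹' A ∩ T^[i * H] ⁻¹' F)|
        ≤ μ.real (A ∆ (T^[i * H] ⁻¹' A)) := abs_inter_sub_le _ _ _
      _ ≤ (i * H : ℕ) * ε := symmDiff_iter_le hT hA _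
      _ ≤ (N * H : ℕ) * ε := by
          have : (i * H : ℕ) ≤ N * H := Nat.mul_le_mul_right H hi.le
          have h3 : ((i * H : ℕ) : ℝ) ≤ ((N * H : ℕ) : ℝ) := by exact_mod_cast this
          exact mul_le_mul_of_nonneg_right h3 hε0
  have hsum : (N : ℝ) * (μ.real (A ∩ F) - μ.real A * c) =
      ∑ i ∈ Finset.range N, (μ.real (A ∩ F) - μ.real (A ∩ T^[i * H] ⁻¹' F)) +
        ∫ x in A, S x ∂μ := by
    rw [hSA2, ← Finset.sum_add_distrib]
    simp
    ring
  have hfin : |(N : ℝ) * (μ.real (A ∩ F) - μ.real A * c)| ≤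
      N * ((N * H : ℕ) * ε) + N * η := by
    rw [hsum]
    refine (abs_add_le _ _).trans (add_le_add ?_ hSA)
    calc |∑ i ∈ Finset.range N, (μ.real (A ∩ F) - μ.real (A ∩ T^[i * H] ⁻¹' F))|
        ≤ ∑ i ∈ Finset.range N, |μ.real (A ∩ F) - μ.real (A ∩ T^[i * H] ⁻¹' F)| :=
          Finset.abs_sum_le_sum_abs _ _
      _ ≤ ∑ i ∈ Finset.range N, (((N * H : ℕ) : ℝ) * ε) := Finset.sum_le_sum hterm
      _ = N * ((N * H : ℕ) * ε) := by simp
  rw [abs_mul, abs_of_pos hN0] at hfin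
  have : (N : ℝ) * |μ.real (A ∩ F) - μ.real A * c| ≤ N * (η + (N * H : ℕ) * ε) := by
    linarith
  exact le_of_mul_le_mul_left this hN0

end Pool.Agent.Y312.OverRec
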