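import Pool.Agent.Y312.OR.Indep

/-!
# Uniform near independence, small sets, almost invariant sets of prescribed measure
-/

set_option autoImplicit false
set_option linter.unusedSectionVars false
open MeasureTheory Filter Topology Set
open scoped symmDiff

namespace Pool.Agent.Y312.OverRec

variable {X : Type*} [MeasurableSpace X] {μ : Measure X} [IsProbabilityMeasure μ] {T : X → X}

lemma swap_inter (D : Set X) (n h : ℕ) :
    (D ∩ T^[n] ⁻¹' D) ∩ T^[h] ⁻¹' (D ∩ T^[n] ⁻¹' D) =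
      (D ∩ T^[h] ⁻¹' D) ∩ T^[n] ⁻¹' (D ∩ T^[h] ⁻¹' D) := by
  ext x
  simp only [mem_inter_iff, mem_preimage]
  rw [← Function.iterate_add_apply, ← Function.iterate_add_apply, add_comm n h]
  tauto

lemma uniform_indep (hT : MeasurePreserving T μ μ) (hM : Mix μ T) {D : Set X}
    (hD : MeasurableSet D) (η : ℝ) (hη : 0 < η) :
    ∃ L : ℕ, ∀ n : ℕ, ∀ A : Set X, MeasurableSet A →
      |μ.real (A ∩ (D ∩ T^[n] ⁻¹' D)) - μ.real A * μ.real (D ∩ T^[n] ⁻¹' D)| ≤
        η + L * μ.real (A ∆ (T^[1] ⁻¹' A)) := by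
  obtain ⟨N, hN⟩ := exists_nat_ge (2 / η ^ 2)
  set d := μ.real D with hd
  have hE : ∀ n, MeasurableSet (D ∩ T^[n] ⁻¹' D) := fun n => hD.inter (meas_pre hT n hD)
  have hlim : Tendsto (fun h : ℕ => μ.real (D ∩ T^[h] ⁻¹' D) ^ 2) atTop (𝓝 ((d * d) ^ 2)) :=
    (hM D D hD hD).pow 2
  have hη2 : 0 < η ^ 2 / 8 := by positivity
  have ev1 : ∀ᶠ h in atTop, μ.real (D ∩ T^[h] ⁻¹' D) ^ 2 < (d * d) ^ 2 + η ^ 2 / 8 :=
    hlim.eventually (eventually_lt_nhds (by linarith))
  obtain ⟨H, hH⟩ := eventually_atTop.mp ev1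
  -- a positive gap
  set G := H + 1 with hG
  have ev2 : ∀ᶠ n in atTop, ∀ j ∈ Finset.range N, 1 ≤ j →
      μ.real ((D ∩ T^[j * G] ⁻¹' D) ∩ T^[n] ⁻¹' (D ∩ T^[j * G] ⁻¹' D)) <
        (d * d) ^ 2 + η ^ 2 / 8 := by
    rw [eventually_all_finset]
    intro j hj
    by_cases hj1 : 1 ≤ j
    · have h1 := hM _ _ (hE (j * G)) (hE (j * G))
      have h2 : μ.real (D ∩ T^[j * G] ⁻¹' D) * μ.real (D ∩ T^[j * G] ⁻¹' D) <
          (d * d) ^ 2 + η ^ 2 / 8 := by
        rw [← sq]
        apply hH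
        calc H ≤ G := by omega
          _ ≤ j * G := Nat.le_mul_of_pos_left G hj1
      filter_upwards [h1.eventually (eventually_lt_nhds h2)] with n hn _
      exact hn
    · exact Eventually.of_forall fun n h => absurd h hj1
  have ev3 : ∀ᶠ n in atTop, (d * d) ^ 2 - η ^ 2 / 8 < μ.real (D ∩ T^[n] ⁻¹' D) ^ 2 :=
    hlim.eventually (eventually_gt_nhds (by linarith))
  obtain ⟨n0, hn0⟩ := eventually_atTop.mp (ev2.and ev3)
  have ev4 : ∀ᶠ h in atTop, ∀ n ∈ Finset.range n0,
      μ.real ((D ∩ T^[n] ⁻¹' D) ∩ T^[h] ⁻¹' (D ∩ T^[n] ⁻¹' D)) <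
        μ.real (D ∩ T^[n] ⁻¹' D) ^ 2 + η ^ 2 / 2 := by
    rw [eventually_all_finset]
    intro n _
    have h1 := hM _ _ (hE n) (hE n)
    refine h1.eventually (eventually_lt_nhds ?_)
    rw [← sq]
    have : 0 < η ^ 2 / 2 := by positivity
    linarith
  obtain ⟨H', hH'⟩ := eventually_atTop.mp ev4
  refine ⟨N * G + N * (H' + 1), fun n A hA => ?_⟩
  have hpos : 0 ≤ μ.real (A ∆ (T^[1] ⁻¹' A)) := measureReal_nonneg
  by_cases hn : n < n0
  · have := near_indep hT (hE n) N (H' + 1) η hη hN (fun j hj _ => by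
      have h1 := hH' (j * (H' + 1)) (by
        calc H' ≤ H' + 1 := by omega
          _ ≤ j * (H' + 1) := Nat.le_mul_of_pos_left _ hj) n (Finset.mem_range.mpr hn)
      exact h1.le) hA
    refine this.trans ?_
    push_cast
    have h3 : 0 ≤ (N : ℝ) * G * μ.real (A ∆ (T^[1] ⁻¹' A)) := by positivity
    rw [hG] at h3
    push_cast at h3
    nlinarith
  · have hn' : n0 ≤ n := not_lt.mp hn
    have := near_indep hT (hE n) N G η hη hN (fun j hj hjN => by
      have h1 := (hn0 n hn').1 j (Finset.mem_range.mpr hjN) hj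
      have h2 := (hn0 n hn').2
      rw [swap_inter]
      linarith) hA
    refine this.trans ?_
    push_cast
    have h3 : 0 ≤ (N : ℝ) * (H' + 1) * μ.real (A ∆ (T^[1] ⁻¹' A)) := by positivity
    nlinarith

lemma small_sets (hT : MeasurePreserving T μ μ) (hM : Mix μ T)
    (hA : ∃ A : Set X, MeasurableSet A ∧ 0 < μ.real A ∧ μ.real A < 1)
    (ε : ℝ) (hε : 0 < ε) :
    ∃ E : Set X, MeasurableSet E ∧ 0 < μ.real E ∧ μ.real E ≤ ε := by
  obtain ⟨A, hAm, hA0, hA1⟩ := hA
  set r := (1 + μ.real A) / 2 with hr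
  have hr0 : 0 < r := by positivity
  have hr1 : r < 1 := by rw [hr]; linarith
  have key : ∀ j : ℕ, ∃ E : Set X, MeasurableSet E ∧ 0 < μ.real E ∧ μ.real E ≤ r ^ j := by
    intro j
    induction j with
    | zero => exact ⟨univ, MeasurableSet.univ, by simp, by simp⟩
    | succ j ih =>
      obtain ⟨E, hE, hE0, hE1⟩ := ih
      have h1 := hM E A hE hAm
      have hp : 0 < μ.real E * μ.real A := mul_pos hE0 hA0
      have hlt : μ.real E * μ.real A < μ.real E * r := by
        apply mul_lt_mul_of_pos_left _ hE0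
        rw [hr]; linarith
      obtain ⟨n, hn⟩ := ((h1.eventually (eventually_gt_nhds hp)).and
        (h1.eventually (eventually_lt_nhds hlt))).exists
      refine ⟨E ∩ T^[n] ⁻¹' A, hE.inter (meas_pre hT n hAm), hn.1, hn.2.le.trans ?_⟩
      rw [pow_succ]
      exact mul_le_mul_of_nonneg_right hE1 hr0.le
  obtain ⟨j, hj⟩ := exists_pow_lt_of_lt_one hε hr1
  obtain ⟨E, hE, hE0, hE1⟩ := key j
  exact ⟨E, hE, hE0, hE1.trans hj.le⟩

lemma almost_inv (hT : MeasurePreserving T μ μ) (hM : Mix μ T)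
    (hA : ∃ A : Set X, MeasurableSet A ∧ 0 < μ.real A ∧ μ.real A < 1)
    (p ε : ℝ) (hp0 : 0 ≤ p) (hp1 : p < 1) (hε : 0 < ε) :
    ∃ A : Set X, MeasurableSet A ∧ p ≤ μ.real A ∧ μ.real A ≤ p + ε ∧
      μ.real (A ∆ (T^[1] ⁻¹' A)) ≤ ε := by
  obtain ⟨E, hE, hE0, hE1⟩ := small_sets hT hM hA (ε / 2) (by positivity)
  set U : ℕ → Set X := fun m => ⋃ i ∈ Finset.range m, T^[i] ⁻¹' E with hU
  have hUm : ∀ m, MeasurableSet (U m) := fun m =>
    Finset.measurableSet_biUnion _ (fun i _ => meas_pre hT i hE)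
  have hUsucc : ∀ m, U (m + 1) = U m ∪ T^[m] ⁻¹' E := by
    intro m
    simp only [hU]
    rw [Finset.range_add_one, Finset.set_biUnion_insert, union_comm]
  have hUmono : Monotone U := monotone_nat_of_le_succ fun m => by
    rw [hUsucc]; exact subset_union_left
  have hlim : Tendsto (fun m => μ.real (U m)) atTop (𝓝 (μ.real (⋃ m, U m))) := by
    have h1 := tendsto_measure_iUnion_atTop (μ := μ) hUmono
    exact (ENNReal.tendsto_toReal (measure_ne_top _ _)).comp h1
  have hfull : μ.real (⋃ m, U m) = 1 := by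
    have hm : MeasurableSet (⋃ m, U m) := MeasurableSet.iUnion hUm
    have h1 := hM (⋃ m, U m)ᶜ E hm.compl hE
    have h2 : ∀ n, μ.real ((⋃ m, U m)ᶜ ∩ T^[n] ⁻¹' E) = 0 := by
      intro n
      have : (⋃ m, U m)ᶜ ∩ T^[n] ⁻¹' E = ∅ := by
        ext x
        simp only [mem_inter_iff, mem_compl_iff, mem_empty_iff_false, iff_false, not_and]
        intro hx hxE
        apply hx
        rw [mem_iUnion]
        exact ⟨n + 1, by rw [hUsucc]; exact Or.inr hxE⟩
      rw [this]; simp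
    simp only [h2] at h1
    have h3 : μ.real (⋃ m, U m)ᶜ * μ.real E = 0 := tendsto_nhds_unique h1 tendsto_const_nhds
    have h4 : μ.real (⋃ m, U m)ᶜ = 0 := by
      rcases mul_eq_zero.mp h3 with h | h
      · exact h
      · exact absurd h hE0.ne'
    have h5 := measureReal_add_measureReal_compl (μ := μ) hm
    rw [h4] at h5
    simpa using h5
  rw [hfull] at hlim
  have hex : ∃ m, p ≤ μ.real (U m) := by
    obtain ⟨m, hm⟩ := (hlim.eventually (eventually_gt_nhds hp1)).exists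
    exact ⟨m, hm.le⟩
  classical
  set m := Nat.find hex with hmdef
  have hm : p ≤ μ.real (U m) := Nat.find_spec hex
  refine ⟨U m, hUm m, hm, ?_, ?_⟩
  · rcases Nat.eq_zero_or_pos m with h0 | h0
    · rw [h0]
      simp [hU]
      positivity
    · obtain ⟨k, hk⟩ : ∃ k, m = k + 1 := ⟨m - 1, by omega⟩
      have h1 : ¬ p ≤ μ.real (U k) := Nat.find_min hex (by omega)
      push Not at h1
      rw [hk, hUsucc]
      have h2 := measureReal_union_le (μ := μ) (U k) (T^[k] ⁻¹' E)
      rw [pre_real hT k hE] at h2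
      linarith
  · have hsub : (U m) ∆ (T^[1] ⁻¹' U m) ⊆ E ∪ T^[m] ⁻¹' E := by
      have hmemU : ∀ x, x ∈ U m ↔ ∃ i < m, T^[i] x ∈ E := by
        intro x
        simp [hU]
      intro x hx
      rcases hx with ⟨h1, h2⟩ | ⟨h1, h2⟩
      · left
        rw [hmemU] at h1
        obtain ⟨i, hi, hix⟩ := h1
        rcases Nat.eq_zero_or_pos i with h0 | h0
        · rw [h0] at hix; exact hix
        · exfalso
          apply h2
          rw [mem_preimage, hmemU]
          refine ⟨i - 1, by omega, ?_⟩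
          rw [← Function.iterate_add_apply]
          rwa [show i - 1 + 1 = i by omega]
      · right
        rw [mem_preimage, hmemU] at h1
        obtain ⟨i, hi, hix⟩ := h1
        rw [← Function.iterate_add_apply] at hix
        rcases Nat.lt_or_ge (i + 1) m with h0 | h0
        · exfalso
          apply h2
          rw [hmemU]
          exact ⟨i + 1, h0, hix⟩
        · have : i + 1 = m := by omega
          rw [← this]
          exact hix
    calc μ.real ((U m) ∆ (T^[1] ⁻¹' U m)) ≤ μ.real (E ∪ T^[m] ⁻¹' E) := measureReal_mono hsub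
      _ ≤ μ.real E + μ.real (T^[m] ⁻¹' E) := measureReal_union_le _ _
      _ = μ.real E + μ.real E := by rw [pre_real hT m hE]
      _ ≤ ε := by linarith

end Pool.Agent.Y312.OverRec
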